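import Pool.Agent.H.MP_dfcdcf_gt.Defs

namespace Pool.Agent.H.MP_dfcdcf_gt

def bar (e : ℕ × Bool) : ℕ × Bool := (e.1, !e.2)

def mk (w0 w1 : List (ℕ × Bool)) (l : List ℕ)
    (h : (∀ i, (![w0, w1] i).Nodup) ∧ (∀ i j, ∀ e ∈ ![w0, w1] i, e ∈ ![w0, w1] j → i = j) ∧
      ∀ i, ∀ e ∈ ![w0, w1] i, ∃ j, bar e ∈ ![w0, w1] j) : Gauss 2 where
  word := ![w0, w1]
  sign c := if c ∈ l then -1 else 1
  nodup := h.1
  disj i j e := h.2.1 i j e
  both _ := ⟨fun ⟨i, hi⟩ => h.2.2 i _ hi, fun ⟨i, hi⟩ => h.2.2 i _ hi⟩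

def d0 : Gauss 2 := mk [(0, true), (1, false), (2, false), (3, true)]
  [(0, false), (1, true), (2, true), (3, false)] [] (by decide)

def d1 : Gauss 2 := mk [(0, true), (4, true), (5, true), (1, false), (4, false), (5, false), (2, false), (3, true)]
  [(0, false), (1, true), (2, true), (3, false)] [5] (by decide)

def d2 : Gauss 2 := mk [(0, true), (4, true), (1, false), (5, true), (4, false), (2, false), (5, false), (3, true)]
  [(0, false), (2, true), (1, true), (3, false)] [5] (by decide)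

def d3 : Gauss 2 := mk [(4, true), (0, true), (1, false), (5, true), (2, false), (4, false), (5, false), (3, true)]
  [(2, true), (0, false), (1, true), (3, false)] [5] (by decide)

def d4 : Gauss 2 := mk [(4, false), (0, true), (1, false), (5, true), (2, false), (4, true), (5, false), (3, true)]
  [(2, true), (0, false), (1, true), (3, false)] [4, 5] (by decide)

def d5 : Gauss 2 := mk [(4, false), (0, true), (1, false), (5, false), (2, false), (4, true), (5, true), (3, true)]
  [(2, true), (0, false), (1, true), (3, false)] [4] (by decide)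

def d6 : Gauss 2 := mk [(4, false), (0, true), (5, false), (1, false), (2, false), (4, true), (3, true), (5, true)]
  [(2, true), (0, false), (3, false), (1, true)] [4] (by decide)

def d7 : Gauss 2 := mk [(0, true), (4, false), (5, false), (1, false), (2, false), (3, true), (4, true), (5, true)]
  [(2, true), (3, false), (0, false), (1, true)] [4] (by decide)

def d8 : Gauss 2 := mk [(0, true), (1, false), (2, false), (3, true)]
  [(2, true), (3, false), (0, false), (1, true)] [] (by decide)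

def d9 : Gauss 2 := mk [(0, true), (1, false), (2, false), (3, true)]
  [(4, true), (5, true), (2, true), (3, false), (0, false), (4, false), (5, false), (1, true)] [5] (by decide)

def d10 : Gauss 2 := mk [(0, true), (2, false), (1, false), (3, true)]
  [(4, true), (2, true), (5, true), (3, false), (0, false), (4, false), (1, true), (5, false)] [5] (by decide)

def d11 : Gauss 2 := mk [(2, false), (0, true), (1, false), (3, true)]
  [(2, true), (4, true), (5, true), (3, false), (4, false), (0, false), (1, true), (5, false)] [5] (by decide)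

def d12 : Gauss 2 := mk [(2, false), (0, true), (1, false), (3, true)]
  [(2, true), (4, false), (5, true), (3, false), (4, true), (0, false), (1, true), (5, false)] [4, 5] (by decide)

def d13 : Gauss 2 := mk [(2, false), (0, true), (1, false), (3, true)]
  [(2, true), (4, false), (5, false), (3, false), (4, true), (0, false), (1, true), (5, true)] [4] (by decide)

def d14 : Gauss 2 := mk [(2, false), (0, true), (3, true), (1, false)]
  [(2, true), (4, false), (3, false), (5, false), (4, true), (0, false), (5, true), (1, true)] [4] (by decide)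

def d15 : Gauss 2 := mk [(2, false), (3, true), (0, true), (1, false)]
  [(2, true), (3, false), (4, false), (5, false), (0, false), (4, true), (5, true), (1, true)] [4] (by decide)

def d16 : Gauss 2 := mk [(2, false), (3, true), (0, true), (1, false)]
  [(2, true), (3, false), (0, false), (1, true)] [] (by decide)

lemma s0 : Relation.EqvGen (fun D E => VMove D E ∨ SelfChange D E) d0 d1 :=
  .symm _ _ (.rel _ _ (Or.inl (Or.inr (Or.inr (Or.inl ⟨4, 5, by decide,
    Or.inl ⟨0, [(0, true)], [(1, false), (4, false), (5, false), (2, false), (3, true)], rfl⟩,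
    Or.inl ⟨0, [(0, true), (4, true), (5, true), (1, false)], [(2, false), (3, true)], rfl⟩,
    by decide, by unfold SameSign; decide⟩)))))

lemma s1 : Relation.EqvGen (fun D E => VMove D E ∨ SelfChange D E) d1 d2 :=
  .rel _ _ (Or.inl (Or.inr (Or.inr (Or.inr ⟨1, 2, 5, 1, -1, -1, by decide, by decide, by decide,
    Or.inl ⟨rfl, ⟨1, [(0, false)], [(3, false)], rfl⟩⟩,
    Or.inr ⟨rfl, ⟨0, [(0, true), (4, true)], [(4, false), (5, false), (2, false), (3, true)], rfl⟩⟩,
    Or.inr ⟨rfl, ⟨0, [(0, true), (4, true), (5, true), (1, false), (4, false)], [(3, true)], rfl⟩⟩,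
    by decide, by decide, by decide, by unfold SameSign; decide⟩))))

lemma s2 : Relation.EqvGen (fun D E => VMove D E ∨ SelfChange D E) d2 d3 :=
  .rel _ _ (Or.inl (Or.inr (Or.inr (Or.inr ⟨0, 4, 2, 1, 1, 1, by decide, by decide, by decide,
    Or.inl ⟨rfl, ⟨0, [], [(1, false), (5, true), (4, false), (2, false), (5, false), (3, true)], rfl⟩⟩,
    Or.inl ⟨rfl, ⟨1, [], [(1, true), (3, false)], rfl⟩⟩,
    Or.inl ⟨rfl, ⟨0, [(0, true), (4, true), (1, false), (5, true)], [(5, false), (3, true)], rfl⟩⟩,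
    by decide, by decide, by decide, by unfold SameSign; decide⟩))))

lemma s3 : Relation.EqvGen (fun D E => VMove D E ∨ SelfChange D E) d3 d4 :=
  .rel _ _ (Or.inr ⟨4, 0, by decide, by decide, by decide, by decide, by decide⟩)

lemma s4 : Relation.EqvGen (fun D E => VMove D E ∨ SelfChange D E) d4 d5 :=
  .rel _ _ (Or.inr ⟨5, 0, by decide, by decide, by decide, by decide, by decide⟩)

lemma s5 : Relation.EqvGen (fun D E => VMove D E ∨ SelfChange D E) d5 d6 :=
  .rel _ _ (Or.inl (Or.inr (Or.inr (Or.inr ⟨3, 5, 1, -1, -1, -1, by decide, by decide, by decide,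
    Or.inr ⟨rfl, ⟨0, [(4, false), (0, true), (1, false), (5, false), (2, false), (4, true)], [], rfl⟩⟩,
    Or.inr ⟨rfl, ⟨1, [(2, true), (0, false)], [], rfl⟩⟩,
    Or.inr ⟨rfl, ⟨0, [(4, false), (0, true)], [(2, false), (4, true), (5, true), (3, true)], rfl⟩⟩,
    by decide, by decide, by decide, by unfold SameSign; decide⟩))))

lemma s6 : Relation.EqvGen (fun D E => VMove D E ∨ SelfChange D E) d6 d7 :=
  .rel _ _ (Or.inl (Or.inr (Or.inr (Or.inr ⟨4, 3, 0, 1, 1, -1, by decide, by decide, by decide,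
    Or.inl ⟨rfl, ⟨0, [(4, false), (0, true), (5, false), (1, false), (2, false)], [(5, true)], rfl⟩⟩,
    Or.inl ⟨rfl, ⟨0, [], [(5, false), (1, false), (2, false), (4, true), (3, true), (5, true)], rfl⟩⟩,
    Or.inr ⟨rfl, ⟨1, [(2, true)], [(1, true)], rfl⟩⟩,
    by decide, by decide, by decide, by unfold SameSign; decide⟩))))

lemma s7 : Relation.EqvGen (fun D E => VMove D E ∨ SelfChange D E) d7 d8 :=
  .rel _ _ (Or.inl (Or.inr (Or.inr (Or.inl ⟨4, 5, by decide,
    Or.inl ⟨0, [(0, true), (4, false), (5, false), (1, false), (2, false), (3, true)], [], rfl⟩,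
    Or.inl ⟨0, [(0, true)], [(1, false), (2, false), (3, true), (4, true), (5, true)], rfl⟩,
    by decide, by unfold SameSign; decide⟩))))

lemma s8 : Relation.EqvGen (fun D E => VMove D E ∨ SelfChange D E) d8 d9 :=
  .symm _ _ (.rel _ _ (Or.inl (Or.inr (Or.inr (Or.inl ⟨4, 5, by decide,
    Or.inl ⟨1, [], [(2, true), (3, false), (0, false), (4, false), (5, false), (1, true)], rfl⟩,
    Or.inl ⟨1, [(4, true), (5, true), (2, true), (3, false), (0, false)], [(1, true)], rfl⟩,
    by decide, by unfold SameSign; decide⟩)))))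

lemma s9 : Relation.EqvGen (fun D E => VMove D E ∨ SelfChange D E) d9 d10 :=
  .rel _ _ (Or.inl (Or.inr (Or.inr (Or.inr ⟨5, 2, 1, 1, 1, -1, by decide, by decide, by decide,
    Or.inl ⟨rfl, ⟨1, [(4, true)], [(3, false), (0, false), (4, false), (5, false), (1, true)], rfl⟩⟩,
    Or.inl ⟨rfl, ⟨1, [(4, true), (5, true), (2, true), (3, false), (0, false), (4, false)], [], rfl⟩⟩,
    Or.inr ⟨rfl, ⟨0, [(0, true)], [(3, true)], rfl⟩⟩,
    by decide, by decide, by decide, by unfold SameSign; decide⟩))))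

lemma s10 : Relation.EqvGen (fun D E => VMove D E ∨ SelfChange D E) d10 d11 :=
  .rel _ _ (Or.inl (Or.inr (Or.inr (Or.inr ⟨2, 4, 0, -1, -1, -1, by decide, by decide, by decide,
    Or.inr ⟨rfl, ⟨1, [], [(5, true), (3, false), (0, false), (4, false), (1, true), (5, false)], rfl⟩⟩,
    Or.inr ⟨rfl, ⟨0, [], [(1, false), (3, true)], rfl⟩⟩,
    Or.inr ⟨rfl, ⟨1, [(4, true), (2, true), (5, true), (3, false)], [(1, true), (5, false)], rfl⟩⟩,
    by decide, by decide, by decide, by unfold SameSign; decide⟩))))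

lemma s11 : Relation.EqvGen (fun D E => VMove D E ∨ SelfChange D E) d11 d12 :=
  .rel _ _ (Or.inr ⟨4, 1, by decide, by decide, by decide, by decide, by decide⟩)

lemma s12 : Relation.EqvGen (fun D E => VMove D E ∨ SelfChange D E) d12 d13 :=
  .rel _ _ (Or.inr ⟨5, 1, by decide, by decide, by decide, by decide, by decide⟩)

lemma s13 : Relation.EqvGen (fun D E => VMove D E ∨ SelfChange D E) d13 d14 :=
  .rel _ _ (Or.inl (Or.inr (Or.inr (Or.inr ⟨1, 5, 3, 1, 1, 1, by decide, by decide, by decide,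
    Or.inl ⟨rfl, ⟨1, [(2, true), (4, false), (5, false), (3, false), (4, true), (0, false)], [], rfl⟩⟩,
    Or.inl ⟨rfl, ⟨0, [(2, false), (0, true)], [], rfl⟩⟩,
    Or.inl ⟨rfl, ⟨1, [(2, true), (4, false)], [(4, true), (0, false), (1, true), (5, true)], rfl⟩⟩,
    by decide, by decide, by decide, by unfold SameSign; decide⟩))))

lemma s14 : Relation.EqvGen (fun D E => VMove D E ∨ SelfChange D E) d14 d15 :=
  .rel _ _ (Or.inl (Or.inr (Or.inr (Or.inr ⟨0, 3, 4, 1, -1, -1, by decide, by decide, by decide,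
    Or.inl ⟨rfl, ⟨0, [(2, false)], [(1, false)], rfl⟩⟩,
    Or.inr ⟨rfl, ⟨1, [(2, true), (4, false), (3, false), (5, false)], [(5, true), (1, true)], rfl⟩⟩,
    Or.inr ⟨rfl, ⟨1, [(2, true)], [(5, false), (4, true), (0, false), (5, true), (1, true)], rfl⟩⟩,
    by decide, by decide, by decide, by unfold SameSign; decide⟩))))

lemma s15 : Relation.EqvGen (fun D E => VMove D E ∨ SelfChange D E) d15 d16 :=
  .rel _ _ (Or.inl (Or.inr (Or.inr (Or.inl ⟨4, 5, by decide,
    Or.inl ⟨1, [(2, true), (3, false), (4, false), (5, false), (0, false)], [(1, true)], rfl⟩,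
    Or.inl ⟨1, [(2, true), (3, false)], [(0, false), (4, true), (5, true), (1, true)], rfl⟩,
    by decide, by unfold SameSign; decide⟩))))

lemma chain : Relation.EqvGen (fun D E => VMove D E ∨ SelfChange D E) d0 d16 :=
  .trans _ _ _ s0 <|
  .trans _ _ _ s1 <|
  .trans _ _ _ s2 <|
  .trans _ _ _ s3 <|
  .trans _ _ _ s4 <|
  .trans _ _ _ s5 <|
  .trans _ _ _ s6 <|
  .trans _ _ _ s7 <|
  .trans _ _ _ s8 <|
  .trans _ _ _ s9 <|
  .trans _ _ _ s10 <|
  .trans _ _ _ s11 <|
  .trans _ _ _ s12 <|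
  .trans _ _ _ s13 <|
  .trans _ _ _ s14 <|
  s15


abbrev G := Equiv.Perm (Fin 3)

def g (s : ℕ → ℤˣ) (e : ℕ × Bool) : G :=
  (if e.2 then Equiv.swap 0 1 else Equiv.swap 0 1 * Equiv.swap 1 2) ^ (s e.1 : ℤ)

def phi (D : Gauss 2) : G := ((D.word 0).map (g D.sign)).prod

lemma noself {D : Gauss 2} (h : IsMonotone D) (c : ℕ) (i : Fin 2) (h1 : (c, true) ∈ D.word i)
    (h2 : (c, false) ∈ D.word i) : False := by
  obtain ⟨f, hf⟩ := h
  have h3 : (D.word i).Pairwise fun a b => a.1 ≠ b.1 :=
    (hf i).imp fun {a b} h h' => by rw [h'] at h; exact lt_irrefl _ h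
  have : Std.Symm fun a b : ℕ × Bool => a.1 ≠ b.1 := ⟨fun _ _ h => h.symm⟩
  exact h3.forall h1 h2 (by simp) rfl

lemma Adj.mem {D : Gauss 2} {a b : ℕ × Bool} (h : Adj D a b) :
    ∃ i, a ∈ D.word i ∧ b ∈ D.word i := by
  rcases h with ⟨i, u, v, h⟩ | ⟨i, u, v, h⟩ <;> exact ⟨i, by simp [h], by simp [h]⟩

lemma Ord.adj {D : Gauss 2} {a b : ℕ × Bool} {o : ℤˣ} (h : Ord D a b o) : Adj D a b :=
  h.imp And.right And.right

lemma phi_congr {D E : Gauss 2} (h : SameSign D E) :
    phi E = ((E.word 0).map (g D.sign)).prod := by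
  unfold phi
  rw [List.map_congr_left fun e he => ?_]
  unfold g
  rw [h 0 e he]

lemma r2_aux {D : Gauss 2} (hD : IsMonotone D) {c d : ℕ} (hs : D.sign c = -D.sign d) (o : Bool)
    {u v : List (ℕ × Bool)} (h : D.word 0 = u ++ (c, o) :: (d, o) :: v) :
    (((D.word 0).filter fun e => e.1 ≠ c ∧ e.1 ≠ d).map (g D.sign)).prod = phi D := by
  have hn := D.nodup 0
  have key : ∀ x, (x, o) ∈ D.word 0 → ∀ e ∈ D.word 0, e ≠ (x, o) → e.1 ≠ x := by
    rintro x hx ⟨_, b⟩ he h1 rfl
    cases o <;> cases b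
    · exact h1 rfl
    · exact noself hD _ 0 he hx
    · exact noself hD _ 0 hx he
    · exact h1 rfl
  have kc := key c (by simp [h])
  have kd := key d (by simp [h])
  rw [h, List.nodup_append] at hn
  obtain ⟨-, h2, h3⟩ := hn
  simp only [List.nodup_cons, List.mem_cons, not_or] at h2
  have hu : u.filter (fun e => e.1 ≠ c ∧ e.1 ≠ d) = u := List.filter_eq_self.2 fun e he => by
    have he' : e ∈ D.word 0 := by simp [h, he]
    simpa using ⟨kc e he' (h3 e he _ (by simp)), kd e he' (h3 e he _ (by simp))⟩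
  have hv : v.filter (fun e => e.1 ≠ c ∧ e.1 ≠ d) = v := List.filter_eq_self.2 fun e he => by
    have he' : e ∈ D.word 0 := by simp [h, he]
    simpa using ⟨kc e he' fun h' => h2.1.2 (h' ▸ he), kd e he' fun h' => h2.2.1 (h' ▸ he)⟩
  have hg : g D.sign (c, o) * g D.sign (d, o) = 1 := by
    simp only [g, hs, Units.val_neg, zpow_neg, inv_mul_cancel]
  unfold phi
  rw [h, List.filter_append, hu, List.filter_cons_of_neg (by simp),
    List.filter_cons_of_neg (by simp), hv]
  simp only [List.map_append, List.prod_append, List.map_cons, List.prod_cons]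
  rw [← mul_assoc (g _ _), hg, one_mul]

lemma r2_aux' {D : Gauss 2} (hD : IsMonotone D) {c d : ℕ} (hs : D.sign c = -D.sign d) (o : Bool)
    (h : Adj D (c, o) (d, o)) (hc : (c, o) ∈ D.word 0) :
    (((D.word 0).filter fun e => e.1 ≠ c ∧ e.1 ≠ d).map (g D.sign)).prod = phi D := by
  rcases h with ⟨i, u, v, h⟩ | ⟨i, u, v, h⟩
  · obtain rfl : i = 0 := D.disj _ _ _ (by simp [h]) hc
    exact r2_aux hD hs o h
  · obtain rfl : i = 0 := D.disj _ _ _ (by simp [h]) hc
    simp only [and_comm (a := _ ≠ c)]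
    exact r2_aux hD (by rw [hs, neg_neg]) o h

lemma phi_move {D E : Gauss 2} (hD : IsMonotone D) (h : WMove D E) : phi E = phi D := by
  rcases h with (⟨f, h1, h2⟩ | ⟨c, h1, -⟩ | ⟨c, d, h1, h2, h3, h4, h5⟩ |
    ⟨x, y, z, p, q, r, -, -, -, h1, h2, h3, -⟩) | ⟨i, u, v, c, d, h1, h2, h3, h4⟩
  · unfold phi
    rw [h1, List.map_map, List.map_congr_left fun e he => ?_]
    simp only [g, Function.comp, Prod.map_fst, Prod.map_snd, id, h2 0 e he]
  · obtain ⟨i, a, b⟩ := h1.mem
    exact (noself hD c i a b).elim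
  · rw [phi_congr h5, h4]
    obtain ⟨i, a1, -⟩ := h2.mem
    obtain ⟨j, b1, -⟩ := h3.mem
    by_cases hi : i = 0
    · exact r2_aux' hD h1 _ h2 (hi ▸ a1)
    · by_cases hj : j = 0
      · exact r2_aux' hD h1 _ h3 (hj ▸ b1)
      · obtain rfl : i = j := by omega
        exact (noself hD c i a1 b1).elim
  · obtain ⟨i, a1, a2⟩ := h1.adj.mem
    obtain ⟨j, b1, b2⟩ := h2.adj.mem
    obtain ⟨k, c1, c2⟩ := h3.adj.mem
    have : i = j ∨ i = k ∨ j = k := by omega
    rcases this with rfl | rfl | rfl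
    · exact (noself hD _ _ a1 b1).elim
    · exact (noself hD _ _ a2 c1).elim
    · exact (noself hD _ _ b2 c2).elim
  · rw [phi_congr h4]
    by_cases hi : i = 0
    · subst hi
      have : g D.sign (d, true) * g D.sign (c, true) = g D.sign (c, true) * g D.sign (d, true) := by
        simp only [g, if_true, ← zpow_add, add_comm]
      unfold phi
      rw [h1, h2]
      simp only [List.map_append, List.prod_append, List.map_cons, List.prod_cons]
      rw [← mul_assoc (g _ _), this, mul_assoc]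
    · rw [h3 0 (Ne.symm hi)]
      rfl

lemma not_rel (M : Gauss 2 → Gauss 2 → Prop) (hM : ∀ D E, M D E → WMove D E) :
    ¬ Relation.EqvGen (fun D E => IsMonotone D ∧ IsMonotone E ∧ M D E) d0 d16 := by
  intro h
  have key : ∀ D E, Relation.EqvGen (fun D E => IsMonotone D ∧ IsMonotone E ∧ M D E) D E →
      phi E = phi D := by
    intro D E h
    induction h with
    | rel D E h => exact phi_move h.1 (hM _ _ h.2.2)
    | refl => rfl
    | symm _ _ _ ih => exact ih.symm
    | trans _ _ _ _ _ ih ih' => exact ih'.trans ih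
  exact absurd (key _ _ h) (by decide)

lemma mono0 : IsMonotone d0 := by
  refine ⟨fun c => c, fun i => ?_⟩
  simp only [Nat.cast_lt]
  revert i
  decide

lemma mono16 : IsMonotone d16 := by
  refine ⟨fun c => ((c + 2) % 4 : ℕ), fun i => ?_⟩
  simp only [Nat.cast_lt]
  revert i
  decide

end Pool.Agent.H.MP_dfcdcf_gt
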