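import Mathlib

namespace Pool.Agent.H.MP_dfcdcf_gt

/-- Gauss diagram of an `n`-strand virtual string link diagram. Classical crossings carry labels
`c : ℕ`; `(c, true)` is the over-passage and `(c, false)` the under-passage at `c`; `word i` lists
the passages met along the `i`-th strand; `sign c` is the sign of the crossing `c`. -/
structure Gauss (n : ℕ) where
  word : Fin n → List (ℕ × Bool)
  sign : ℕ → ℤˣ
  nodup : ∀ i, (word i).Nodup
  disj : ∀ i j e, e ∈ word i → e ∈ word j → i = j
  both : ∀ c, (∃ i, (c, true) ∈ word i) ↔ ∃ i, (c, false) ∈ word i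

variable {n : ℕ}

/-- The passage `b` comes immediately after the passage `a` on some strand. -/
def Next (D : Gauss n) (a b : ℕ × Bool) : Prop := ∃ i u v, D.word i = u ++ a :: b :: v

/-- The passages `a`, `b` are consecutive in either order. -/
def Adj (D : Gauss n) (a b : ℕ × Bool) : Prop := Next D a b ∨ Next D b a

/-- The passages `a`, `b` are consecutive, `o = 1` if `a` comes first and `o = -1` otherwise. -/
def Ord (D : Gauss n) (a b : ℕ × Bool) (o : ℤˣ) : Prop :=
  (o = 1 ∧ Next D a b) ∨ (o = -1 ∧ Next D b a)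

/-- The crossings of `E` have the same signs as in `D`. -/
def SameSign (D E : Gauss n) : Prop := ∀ i, ∀ e ∈ E.word i, E.sign e.1 = D.sign e.1

/-- Renaming of the crossings. -/
def Rename (D E : Gauss n) : Prop :=
  ∃ f : Equiv.Perm ℕ, (∀ i, E.word i = (D.word i).map (Prod.map f id)) ∧
    ∀ i, ∀ e ∈ D.word i, E.sign (f e.1) = D.sign e.1

def R1 (D E : Gauss n) : Prop :=
  ∃ c, Adj D (c, true) (c, false) ∧ (∀ j, E.word j = (D.word j).filter fun e => e.1 ≠ c) ∧
    SameSign D E

def R2 (D E : Gauss n) : Prop :=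
  ∃ c d, D.sign c = -D.sign d ∧ Adj D (c, true) (d, true) ∧ Adj D (c, false) (d, false) ∧
    (∀ j, E.word j = (D.word j).filter fun e => e.1 ≠ c ∧ e.1 ≠ d) ∧ SameSign D E

/-- R3 on the crossings `x` (top over middle), `y` (top over bottom), `z` (middle over bottom). -/
def R3 (D E : Gauss n) : Prop :=
  ∃ (x y z : ℕ) (p q r : ℤˣ), x ≠ y ∧ x ≠ z ∧ y ≠ z ∧ Ord D (x, true) (y, true) p ∧
    Ord D (x, false) (z, true) q ∧ Ord D (y, false) (z, false) r ∧
    p * D.sign x * D.sign y = q * D.sign x * D.sign z ∧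
    p * D.sign x * D.sign y = r * D.sign y * D.sign z ∧
    (∀ j, E.word j = (D.word j).map (Equiv.swap (x, true) (y, true) *
      Equiv.swap (x, false) (z, true) * Equiv.swap (y, false) (z, false) : Equiv.Perm (ℕ × Bool))) ∧
    SameSign D E

/-- Overcrossings commute. -/
def OC (D E : Gauss n) : Prop :=
  ∃ i u v c d, D.word i = u ++ (c, true) :: (d, true) :: v ∧
    E.word i = u ++ (d, true) :: (c, true) :: v ∧ (∀ j, j ≠ i → E.word j = D.word j) ∧ SameSign D E

/-- Self-crossing change. -/
def SelfChange (D E : Gauss n) : Prop :=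
  ∃ c i, (c, true) ∈ D.word i ∧ (c, false) ∈ D.word i ∧
    (∀ j, E.word j = (D.word j).map (Equiv.swap (c, true) (c, false))) ∧ E.sign c = -D.sign c ∧
    ∀ j, ∀ e ∈ E.word j, e.1 ≠ c → E.sign e.1 = D.sign e.1

def VMove (D E : Gauss n) : Prop := Rename D E ∨ R1 D E ∨ R2 D E ∨ R3 D E

def WMove (D E : Gauss n) : Prop := VMove D E ∨ OC D E

/-- Gauss diagram of a monotone diagram: the crossings have heights that strictly increase along
every strand. -/
def IsMonotone (D : Gauss n) : Prop :=
  ∃ h : ℕ → ℝ, ∀ i, (D.word i).Pairwise fun a b => h a.1 < h b.1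

end Pool.Agent.H.MP_dfcdcf_gt
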